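import Mathlib

namespace Pool.Agent.H.MP_9a42a6_lc

open Cardinal Set Function

universe u

variable {K J L : Type u} [LinearOrder K] [WellFoundedLT K]

theorem core (m : K) (hJ : ℵ₀ ≤ #J) (hm : #(Iio m) ≤ #J) (D : (K → Bool) → K → J → Bool)
    (hD : ∀ x y δ, m ≤ δ → (∀ j < δ, x j = y j) → (∀ j < δ, D x j = D y j) → x δ = y δ) :
    (2 : Cardinal) ^ #K ≤ 2 ^ #J := by
  obtain ⟨p⟩ : Nonempty ((J → J → Bool) ↪ (J → Bool)) := by
    rw [← le_def]
    simp [← power_mul, mul_eq_self hJ]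
  obtain ⟨j0⟩ : Nonempty J := mk_ne_zero_iff.1 (aleph0_pos.trans_le hJ).ne'
  let E : (K → J → Bool) → K → J → Bool := fun v a => p fun j => D (fun b => v b j) a
  have := mk_le_of_injective (f := fun (x : K → Bool) (n : ULift.{u} ℕ) (a : Iio m) =>
    E^[n.down] (fun b _ => x b) a) fun x y h => funext fun a => by
      refine congrFun ((wellFounded_lt.induction (C := fun a => ∀ n, E^[n] (fun b _ => x b) a =
        E^[n] (fun b _ => y b) a) a fun a ih n => ?_) 0) j0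
      rcases lt_or_ge a m with l | l
      · exact congrFun (congrFun h ⟨n⟩) ⟨a, l⟩
      refine funext fun j => hD _ _ a l (fun b hb => congrFun (ih b hb n) j) fun b hb => ?_
      have := ih b hb (n + 1)
      rw [iterate_succ_apply', iterate_succ_apply'] at this
      exact congrFun (p.injective this) j
  simp only [mk_pi, prod_const, lift_id, mk_bool, lift_ofNat, ← power_mul, mk_uLift, mk_nat,
    lift_aleph0, lift_id'] at this
  refine this.trans (power_le_power_left two_ne_zero ?_)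
  exact (mul_le_mul' (mul_le_mul' le_rfl hm) hJ).trans_eq (by rw [mul_eq_self hJ, mul_eq_self hJ])

theorem big (m : K) (hJ : ℵ₀ ≤ #J) (hm : #(Iio m) ≤ #J) 
    (hK : ∀ a : K, (2 : Cardinal) ^ #(Iic a) ≤ 2 ^ #J)
    (c : Sym2 (K → Bool) → L) (e : K → L) (hc : ∀ x y i, m ≤ i → x i ≠ y i →
      (∀ j < i, x j = y j) → ∃ j < i, c s(x, y) = e j)
    (h : ∀ (Y : Set (K → Bool)) a, (Y.Pairwise fun x y => c s(x, y) = a) → #Y ≤ #J) :
    (2 : Cardinal) ^ #K ≤ 2 ^ #J := by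
  classical
  let ch : Set (K → Bool) → Option (K → Bool) := fun S => if h : S.Nonempty then h.some else none
  obtain ⟨Y, hY⟩ : ∃ Y : (K → Bool) → K → Option (K → Bool), ∀ x i, Y x i = ch {z | m ≤ i ∧
      (∀ j < i, z j = x j) ∧ z i ≠ x i ∧ ∀ j < i, ∀ a, Y x j = some a → c s(z, a) = c s(x, a)} :=
    ⟨fun x => wellFounded_lt.fix fun i g => ch {z | m ≤ i ∧ (∀ j < i, z j = x j) ∧ z i ≠ x i ∧
      ∀ j h, ∀ a, g j h = some a → c s(z, a) = c s(x, a)}, fun x i => WellFounded.fix_eq _ _ _⟩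
  have y1 : ∀ {x i z}, Y x i = some z → m ≤ i ∧ (∀ j < i, z j = x j) ∧ z i ≠ x i ∧
      ∀ j < i, ∀ a, Y x j = some a → c s(z, a) = c s(x, a) := fun {x i z} k => by
    rw [hY] at k
    simp only [ch] at k
    split_ifs at k with l
    exact Option.some.inj k ▸ l.some_mem
  have y2 : ∀ x l, ∃ n : K → J, InjOn n {i | ∃ z, Y x i = some z ∧ c s(x, z) = l} := fun x l => by
    obtain ⟨j0⟩ : Nonempty J := mk_ne_zero_iff.1 (aleph0_pos.trans_le hJ).ne'
    have k : ∀ i j z w, Y x i = some z → Y x j = some w → i < j → w ≠ z ∧ c s(w, z) = c s(x, z) :=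
      fun i j z w a b l => ⟨fun k => (y1 a).2.2.1 (k ▸ (y1 b).2.1 i l), (y1 b).2.2.2 i l z a⟩
    obtain ⟨n⟩ := (le_def _ _).1 (h {z | (∃ i, Y x i = some z) ∧ c s(x, z) = l} l (by
      rintro z ⟨⟨i, a⟩, a'⟩ w ⟨⟨j, b⟩, b'⟩ d
      rcases lt_trichotomy i j with l | rfl | l
      exacts [Sym2.eq_swap ▸ (k _ _ _ _ a b l).2.trans a', absurd (Option.some.inj (a ▸ b)) d,
        (k _ _ _ _ b a l).2.trans b']))
    refine ⟨fun i => if h : ∃ z, Y x i = some z ∧ c s(x, z) = l then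
      n ⟨_, ⟨i, h.choose_spec.1⟩, h.choose_spec.2⟩ else j0, fun i a j b d => ?_⟩
    simp only [dif_pos (show ∃ _, _ from a), dif_pos (show ∃ _, _ from b)] at d
    have d := congrArg Subtype.val (n.injective d)
    rcases lt_trichotomy i j with l | l | l
    exacts [absurd d.symm (k _ _ _ _ a.choose_spec.1 b.choose_spec.1 l).1, l,
      absurd d (k _ _ _ _ b.choose_spec.1 a.choose_spec.1 l).1]
  choose n y2 using y2
  let U : (K → Bool) → K → K → J → Prop := fun x i a j =>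
    (∃ z, Y x i = some z ∧ c s(x, z) = e a) ∧ n x (e a) i = j
  have u1 : ∀ {x i i' a j}, U x i a j → U x i' a j → i = i' := fun a b =>
    y2 _ _ a.1 b.1 (a.2.trans b.2.symm)
  have u2 : ∀ {x i z}, Y x i = some z → ∃ a < i, ∃ j, U x i a j := fun {x i z} k =>
    (hc x z i (y1 k).1 (y1 k).2.2.1.symm fun j l => ((y1 k).2.1 j l).symm).imp fun a l =>
      ⟨l.1, _, ⟨z, k, l.2⟩, rfl⟩
  have : ∀ a : K, Nonempty (Set (Iic a × J × J × Bool) ↪ (J → Bool)) := fun a => by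
    rw [← le_def]
    simp only [mk_set, mk_prod, lift_id, mk_pi, prod_const, mk_bool, lift_ofNat, lift_id']
    rw [mul_eq_left (b := 2) hJ ((natCast_lt_aleph0 (n := 2)).le.trans hJ) two_ne_zero, mul_eq_self hJ, power_mul]
    exact (power_le_power_right (hK a)).trans_eq (by rw [← power_mul, mul_eq_self hJ])
  refine core m hJ hm (fun x a => (this a).some {p | if p.2.2.2 then ∃ i, U x i a p.2.1 ∧ x i else
    ∃ i, U x i p.1 p.2.1 ∧ ∀ i' ≤ i, ¬U x i' a p.2.2.1}) fun x y δ l1 l2 l3 => by_contra fun l4 => ?_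
  replace l3 := fun a (h : a < δ) p => Set.ext_iff.1 ((this a).some.injective (l3 a h)) p
  let P : K → Prop := fun i => Y x i = Y y i ∧ ∀ a < δ, ∀ j, U x i a j ↔ U y i a j
  have k1 : ∀ i, (∀ i' < i, P i') → ∀ a < δ, ∀ b < δ, ∀ j k, U x i a j → U y i b k →
      U y i a j ∧ U x i b k := fun i p a ha b hb j k a1 a2 => by
    have k0 : U y i a j ↔ U x i b k := by
      constructor
      · rintro ⟨⟨z, b1, b2⟩, b3⟩
        obtain ⟨⟨w, c1, c2⟩, c3⟩ := a2
        obtain rfl := Option.some.inj (b1 ▸ c1)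
        simp only [U, ← b2.symm.trans c2]
        exact ⟨a1.1, a1.2.trans (b3.symm.trans (b2.symm.trans c2 ▸ c3))⟩
      · rintro ⟨⟨z, b1, b2⟩, b3⟩
        obtain ⟨⟨w, c1, c2⟩, c3⟩ := a1
        obtain rfl := Option.some.inj (b1 ▸ c1)
        simp only [U, ← b2.symm.trans c2]
        exact ⟨a2.1, a2.2.trans (b3.symm.trans (b2.symm.trans c2 ▸ c3))⟩
    rw [← k0, and_self]
    by_contra k2
    rcases le_total a b with l | l
    · obtain ⟨i', b1, b2⟩ := (l3 b hb (⟨a, l⟩, j, k, false)).1 ⟨i, a1, fun i' l' b1 =>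
        l'.eq_or_lt.elim (fun d => k2 (k0.2 (d ▸ b1))) fun d =>
          d.ne (u1 (((p i' d).2 b hb k).1 b1) a2)⟩
      have d := not_le.1 fun d => b2 i d a2
      exact d.ne (u1 (((p i' d).2 a ha j).2 b1) a1)
    · obtain ⟨i', b1, b2⟩ := (l3 a ha (⟨b, l⟩, k, j, false)).2 ⟨i, a2, fun i' l' b1 =>
        l'.eq_or_lt.elim (fun d => k2 (d ▸ b1)) fun d => d.ne (u1 (((p i' d).2 a ha j).2 b1) a1)⟩
      have d := not_le.1 fun d => b2 i d a1
      exact d.ne (u1 (((p i' d).2 b hb k).1 b1) a2)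
  have k2 : ∀ i < δ, P i → ∀ z, Y x i = some z → c s(x, z) = c s(y, z) := fun i hi p z a1 => by
    obtain ⟨a, a2, j, a3⟩ := u2 a1
    obtain ⟨⟨w, b1, b2⟩, -⟩ := (p.2 a (a2.trans hi) j).1 a3
    obtain ⟨⟨w', c1, c2⟩, -⟩ := a3
    rw [Option.some.inj (a1 ▸ c1 : some z = some w'), c2, ← b2,
      Option.some.inj (c1 ▸ p.1 ▸ b1 : some w' = some w)]
  have k3 : ∀ i < δ, P i := fun i => wellFounded_lt.induction (C := fun i => i < δ → P i) i
    fun i ih hi => by
      have p := fun i' (h : i' < i) => ih i' h (h.trans hi)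
      have a1 : Y x i = Y y i := by
        rw [hY, hY, l2 i hi]
        refine congrArg ch (Set.ext fun z => and_congr_right fun _ => and_congr (forall₂_congr
          fun j l => by rw [l2 j (l.trans hi)]) (and_congr_right fun _ => forall₂_congr fun j l =>
            forall_congr' fun a => ?_))
        rw [← (p j l).1]
        exact imp_congr_right fun d => by rw [k2 j (l.trans hi) (p j l) a d]
      refine ⟨a1, fun a ha j => ⟨fun a2 => ?_, fun a2 => ?_⟩⟩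
      · obtain ⟨b, b1, k, b2⟩ := u2 (a1.symm.trans a2.1.choose_spec.1)
        exact (k1 i p a ha b (b1.trans hi) j k a2 b2).1
      · obtain ⟨b, b1, k, b2⟩ := u2 (a1.trans a2.1.choose_spec.1)
        exact (k1 i p b (b1.trans hi) a ha k j b2 a2).2
  have k4 : ∀ x y : K → Bool, (∀ j < δ, y j = x j) → y δ ≠ x δ → (∀ j < δ, ∀ a, Y x j = some a →
      c s(y, a) = c s(x, a)) → ∃ a < δ, ∃ j, U x δ a j := fun x y a1 a2 a3 =>
    u2 ((hY x δ).trans (dif_pos ⟨y, l1, a1, a2, a3⟩))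
  obtain ⟨a, ha, j, a1⟩ := k4 x y (fun j l => (l2 j l).symm) (Ne.symm l4) fun j l z a =>
    (k2 j l (k3 j l) z a).symm
  obtain ⟨b, hb, k, a2⟩ := k4 y x l2 l4 fun j l z a => k2 j l (k3 j l) z ((k3 j l).1 ▸ a)
  have a3 := (k1 δ k3 a ha b hb j k a1 a2).1
  have a4 := l3 a ha (⟨a, le_rfl⟩, j, j, true)
  exact l4 (Bool.eq_iff_iff.2 ⟨fun d => (a4.1 ⟨δ, a1, d⟩).elim fun i d => u1 d.1 a3 ▸ d.2,
    fun d => (a4.2 ⟨δ, a3, d⟩).elim fun i d => u1 d.1 a1 ▸ d.2⟩)

theorem main {κ ν : Cardinal.{0}} (hν : ℵ₀ ≤ ν) (h : (2 : Cardinal) ^ ν < 2 ^ κ) (μ : Iio κ.ord)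
    (hμ : μ.1.card ≤ ν) (c : Sym2 (Iio κ.ord → Bool) → Iio κ.ord)
    (hc : ∀ x y i, μ ≤ i → x i ≠ y i → (∀ j < i, x j = y j) → c s(x, y) < i) :
    ∃ Y : Set (Iio κ.ord → Bool), (∃ a, Y.Pairwise fun x y => c s(x, y) = a) ∧
      lift.{1} ν < #Y := by
  classical
  obtain ⟨θ, h1, h2⟩ := wellFounded_lt.has_min {θ | (2 : Cardinal) ^ ν < 2 ^ θ} ⟨κ, h⟩
  have h3 : θ.ord ≤ κ.ord := ord_le_ord.2 (not_lt.1 (h2 κ h))
  have h4 : ν < θ := lt_of_not_ge fun l => h1.not_ge (power_le_power_left two_ne_zero l)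
  let e : Iio θ.ord → Iio κ.ord := inclusion (Iio_subset_Iio h3)
  let r : (Iio θ.ord → Bool) → Iio κ.ord → Bool := fun x a => if h : a.1 < θ.ord then x ⟨a, h⟩
    else false
  have r1 : ∀ x a, r x (e a) = x a := fun x a => dif_pos a.2
  have r2 : Injective r := fun x y l => funext fun a => by rw [← r1 x, l, r1]
  have hJ : #(Iio ν.ord) = lift.{1} ν := by rw [Cardinal.mk_Iio_ordinal, card_ord]
  by_contra! k
  refine (big (J := Iio ν.ord) (⟨μ, lt_ord.2 (hμ.trans_lt h4)⟩ : Iio θ.ord)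
    (hJ ▸ aleph0_le_lift.2 hν) ?_ (fun a => ?_) (fun s => c (s.map r)) e (fun x y i a1 a2 a3 => ?_)
      fun Y a l => ?_).not_gt ?_
  · refine (mk_le_of_injective (f := fun a => (⟨a.1.1, a.2⟩ : Iio μ.1)) fun a b l =>
      Subtype.ext (Subtype.ext (Subtype.mk.inj l))).trans ?_
    rw [hJ, Cardinal.mk_Iio_ordinal]
    exact lift_le.2 hμ
  · refine (power_le_power_left two_ne_zero (mk_le_of_injective (f := fun b =>
      (⟨b.1.1, Order.lt_add_one_iff.2 (show b.1.1 ≤ a.1 from b.2)⟩ : Iio (a.1 + 1))) fun a b l =>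
        Subtype.ext (Subtype.ext (Subtype.mk.inj l)))).trans ?_
    rw [hJ, Cardinal.mk_Iio_ordinal, ← lift_two_power, ← lift_two_power, lift_le]
    refine not_lt.1 fun l => h2 _ l ?_
    rw [Ordinal.card_add, Ordinal.card_one]
    exact add_lt_of_lt (hν.trans h4.le) (lt_ord.1 a.2) (one_lt_aleph0.trans_le (hν.trans h4.le))
  · have := hc (r x) (r y) (e i) a1 (by rwa [r1, r1]) fun j l =>
      (r1 x ⟨j, lt_trans (b := i.1) l i.2⟩).trans
        ((a3 _ l).trans (r1 y ⟨j, lt_trans (b := i.1) l i.2⟩).symm)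
    exact ⟨⟨_, lt_trans (b := i.1) this i.2⟩, this, rfl⟩
  · rw [hJ, ← mk_image_eq r2]
    exact k _ ⟨a, r2.injOn.pairwise_image.2 l⟩
  · rw [hJ, Cardinal.mk_Iio_ordinal, card_ord, ← lift_two_power, ← lift_two_power, lift_lt]
    exact h1

end Pool.Agent.H.MP_9a42a6_lc
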